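import Pool.Agent.H20.LIM.Targets

/-!
# Averages of locally integrable functions over discs are continuous and commute
-/

set_option autoImplicit false

open Complex MeasureTheory Set Filter Topology Metric

namespace Pool.Agent.H81.LIM

open Pool.Agent.H20.LIM Pool.Agent.H23.GLM Pool.Agent.H23.DZ

lemma AVF_vol (z : ℂ) (r : ℝ) : volume.real (ball z r) = volume.real (ball (0 : ℂ) r) := by
  simp only [Measure.real, Complex.volume_ball]

lemma AVF_av (r : ℝ) (v : ℂ → ℝ) (z : ℂ) :
    av r v z = (volume.real (ball (0 : ℂ) r))⁻¹ * ∫ w, (ball z r).indicator v w := by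
  unfold av
  rw [setAverage_eq, AVF_vol, smul_eq_mul, integral_indicator measurableSet_ball]

lemma AVF_int {v : ℂ → ℝ} (hv : LocallyIntegrable v volume) (z : ℂ) (r : ℝ) :
    IntegrableOn v (ball z r) :=
  (hv.integrableOn_isCompact (isCompact_closedBall z r)).mono_set ball_subset_closedBall

lemma AVF_cont {v : ℂ → ℝ} (hv : LocallyIntegrable v volume) {r : ℝ} (hr : 0 < r) :
    Continuous (av r v) := by
  have e : av r v = fun z => (volume.real (ball (0 : ℂ) r))⁻¹ * ∫ w, (ball z r).indicator v w := by
    ext z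
    exact AVF_av r v z
  rw [e]
  refine continuous_const.mul ?_
  rw [continuous_iff_continuousAt]
  intro z0
  refine tendsto_integral_filter_of_dominated_convergence
    (fun w => (ball z0 (r + 1)).indicator (fun w => ‖v w‖) w) ?_ ?_ ?_ ?_
  · exact Eventually.of_forall fun z => hv.aestronglyMeasurable.indicator measurableSet_ball
  · filter_upwards [ball_mem_nhds z0 one_pos] with z hz
    refine Eventually.of_forall fun w => ?_
    by_cases hw : w ∈ ball z r
    · have hw2 : w ∈ ball z0 (r + 1) := by
        rw [mem_ball] at hw hz ⊢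
        calc dist w z0 ≤ dist w z + dist z z0 := dist_triangle _ _ _
          _ < r + 1 := by linarith
      rw [indicator_of_mem hw, indicator_of_mem hw2]
    · rw [indicator_of_notMem hw, norm_zero]
      exact indicator_nonneg (fun _ _ => norm_nonneg _) _
  · rw [integrable_indicator_iff measurableSet_ball]
    exact (AVF_int hv z0 (r + 1)).norm
  · have h0 : volume (sphere z0 r) = 0 := Measure.addHaar_sphere_of_ne_zero volume z0 hr.ne'
    have h1 : ∀ᵐ w : ℂ, w ∉ sphere z0 r := measure_eq_zero_iff_ae_notMem.1 h0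
    filter_upwards [h1] with w hw
    rcases lt_trichotomy (dist w z0) r with h | h | h
    · have h2 : ∀ᶠ z in 𝓝 z0, dist w z < r :=
        (continuous_const.dist continuous_id).continuousAt.eventually_lt_const h
      refine Tendsto.congr' (f₁ := fun _ => v w) ?_ ?_
      · filter_upwards [h2] with z hz
        exact (indicator_of_mem (mem_ball.2 hz) v).symm
      · rw [indicator_of_mem (mem_ball.2 h)]
        exact tendsto_const_nhds
    · exact absurd (mem_sphere.2 h) hw
    · have h2 : ∀ᶠ z in 𝓝 z0, r < dist w z :=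
        (continuous_const.dist continuous_id).continuousAt.eventually_const_lt h
      refine Tendsto.congr' (f₁ := fun _ => 0) ?_ ?_
      · filter_upwards [h2] with z hz
        exact (indicator_of_notMem (fun h3 => (mem_ball.1 h3).not_ge hz.le) v).symm
      · rw [indicator_of_notMem (fun h3 => (mem_ball.1 h3).not_ge h.le)]
        exact tendsto_const_nhds

/-- the integrand of the double average -/
noncomputable def AVF_F (v : ℂ → ℝ) (z : ℂ) (r ρ : ℝ) (w x : ℂ) : ℝ :=
  {p : ℂ × ℂ | dist p.1 z < r ∧ dist p.2 p.1 < ρ}.indicator (fun p => v p.2) (w, x)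

lemma AVF_F_eq (v : ℂ → ℝ) (z : ℂ) (r ρ : ℝ) (w : ℂ) :
    ∫ x, AVF_F v z r ρ w x = (ball z r).indicator (fun w => ∫ x, (ball w ρ).indicator v x) w := by
  by_cases hw : w ∈ ball z r
  · rw [indicator_of_mem hw]
    congr 1
    ext x
    unfold AVF_F
    by_cases hx : x ∈ ball w ρ
    · rw [indicator_of_mem hx, indicator_of_mem]
      exact ⟨mem_ball.1 hw, mem_ball.1 hx⟩
    · rw [indicator_of_notMem hx, indicator_of_notMem]
      exact fun h => hx (mem_ball.2 h.2)
  · rw [indicator_of_notMem hw]
    have : ∀ x, AVF_F v z r ρ w x = 0 := by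
      intro x
      unfold AVF_F
      rw [indicator_of_notMem]
      exact fun h => hw (mem_ball.2 h.1)
    simp only [this, integral_zero]

lemma AVF_F_int {v : ℂ → ℝ} (hv : LocallyIntegrable v volume) (z : ℂ) (r ρ : ℝ) :
    Integrable (Function.uncurry (AVF_F v z r ρ)) (volume.prod volume) := by
  have hmeas : MeasurableSet {p : ℂ × ℂ | dist p.1 z < r ∧ dist p.2 p.1 < ρ} := by
    refine IsOpen.measurableSet ?_
    refine (isOpen_lt (continuous_fst.dist continuous_const) continuous_const).inter ?_
    exact isOpen_lt (continuous_snd.dist continuous_fst) continuous_const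
  have h1 : Integrable (fun p : ℂ × ℂ => (ball z r).indicator (fun _ => (1 : ℝ)) p.1 *
      (ball z (r + ρ)).indicator (fun x => ‖v x‖) p.2) (volume.prod volume) := by
    refine Integrable.mul_prod ?_ ?_
    · rw [integrable_indicator_iff measurableSet_ball]
      exact integrableOn_const (measure_ball_lt_top.ne)
    · rw [integrable_indicator_iff measurableSet_ball]
      exact (AVF_int hv z (r + ρ)).norm
  refine h1.mono ?_ ?_
  · exact (hv.aestronglyMeasurable.comp_snd).indicator hmeas
  · refine Eventually.of_forall fun p => ?_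
    obtain ⟨w, x⟩ := p
    show ‖AVF_F v z r ρ w x‖ ≤ ‖(ball z r).indicator (fun _ => (1 : ℝ)) w *
      (ball z (r + ρ)).indicator (fun x => ‖v x‖) x‖
    unfold AVF_F
    by_cases h : (w, x) ∈ {p : ℂ × ℂ | dist p.1 z < r ∧ dist p.2 p.1 < ρ}
    · have h2 : dist w z < r := h.1
      have h3 : dist x w < ρ := h.2
      have h4 : x ∈ ball z (r + ρ) := by
        rw [mem_ball]
        calc dist x z ≤ dist x w + dist w z := dist_triangle _ _ _
          _ < r + ρ := by linarith
      rw [indicator_of_mem h, indicator_of_mem (mem_ball.2 h2), indicator_of_mem h4, one_mul,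
        norm_norm]
    · rw [indicator_of_notMem h, norm_zero]
      exact norm_nonneg _

lemma AVF_double {v : ℂ → ℝ} (z : ℂ) (r ρ : ℝ) :
    av r (av ρ v) z = (volume.real (ball (0 : ℂ) r))⁻¹ * ((volume.real (ball (0 : ℂ) ρ))⁻¹ *
      ∫ w, ∫ x, AVF_F v z r ρ w x) := by
  rw [AVF_av]
  congr 1
  rw [← integral_const_mul]
  congr 1
  ext w
  rw [AVF_F_eq]
  by_cases hw : w ∈ ball z r
  · rw [indicator_of_mem hw, indicator_of_mem hw, AVF_av]
  · rw [indicator_of_notMem hw, indicator_of_notMem hw, mul_zero]

lemma AVF_refl (v : ℂ → ℝ) (z : ℂ) (r ρ : ℝ) (x : ℂ) :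
    ∫ w, AVF_F v z ρ r w x = ∫ w, AVF_F v z r ρ w x := by
  rw [← integral_sub_left_eq_self (fun w => AVF_F v z r ρ w x) volume (x + z)]
  congr 1
  ext w
  unfold AVF_F
  have h1 : dist (x + z - w) z = dist x w := by
    rw [dist_eq_norm, dist_eq_norm]
    congr 1
    ring
  have h2 : dist x (x + z - w) = dist w z := by
    rw [dist_eq_norm, dist_eq_norm]
    congr 1
    ring
  by_cases h : dist w z < ρ ∧ dist x w < r
  · rw [indicator_of_mem (s := {p : ℂ × ℂ | dist p.1 z < ρ ∧ dist p.2 p.1 < r}) h,
      indicator_of_mem]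
    exact ⟨by show dist (x + z - w) z < r; rw [h1]; exact h.2,
      by show dist x (x + z - w) < ρ; rw [h2]; exact h.1⟩
  · rw [indicator_of_notMem (s := {p : ℂ × ℂ | dist p.1 z < ρ ∧ dist p.2 p.1 < r}) h,
      indicator_of_notMem]
    rintro ⟨h3, h4⟩
    have h3' : dist (x + z - w) z < r := h3
    have h4' : dist x (x + z - w) < ρ := h4
    rw [h1] at h3'
    rw [h2] at h4'
    exact h ⟨h4', h3'⟩

/-- (AVF) -/
theorem pf_avf : T_AVF := by
  intro v hv r ρ hr hρ
  refine ⟨AVF_cont hv hr, fun z => ?_⟩
  rw [AVF_double, AVF_double, integral_integral_swap (AVF_F_int hv z r ρ),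
    integral_integral_swap (AVF_F_int hv z ρ r)]
  simp only [AVF_refl v z r ρ]
  ring

end Pool.Agent.H81.LIM
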